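import Mathlib

set_option autoImplicit false

namespace Pool.Agent.H.MP_25e654_an

open Set Filter Topology Real Function TopologicalSpace

noncomputable section

/-- summable sequences -/
abbrev E := lp (fun _ : ℕ => ℝ) 1

theorem ml {f : ℕ → ℝ} : Memℓp f 1 ↔ Summable fun n => |f n| := by simpa using memℓp_gen_iff (p := 1) (f := f) (by simp)

theorem l1 (t : ℝ) : |t * log t| ≤ 1 + t ^ 2 := by
  rcases eq_or_ne t 0 with rfl | h
  · simp
  have a := abs_pos.2 h
  rw [abs_mul, ← log_abs, ← sq_abs]
  rcases le_total |t| 1 with k | k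
  · have := abs_log_mul_self_lt _ a k
    rw [abs_mul, abs_abs] at this
    nlinarith
  rw [abs_of_nonneg (log_nonneg k)]
  nlinarith [log_le_sub_one_of_pos a]

theorem l2 (s t : ℝ) : s * t * log (s * t) = s * (t * log t) + s * log s * t := by
  rcases eq_or_ne t 0 with rfl | h
  · simp
  rcases eq_or_ne s 0 with rfl | k
  · simp
  rw [log_mul k h]
  ring

theorem l3 (a b : ℝ) : |(a + b) * log (a + b) - a * log a - b * log b| ≤ |a| + |b| := by
  have q : ∀ a b : ℝ, 0 ≤ a → 0 ≤ b → 0 ≤ a * log (a + b) - a * log a ∧ a * log (a + b) - a * log a ≤ b := fun a b x y => by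
    rcases x.eq_or_lt with rfl | x
    · simpa
    have := log_le_sub_one_of_pos (show 0 < (a + b) / a by positivity)
    rw [log_div (by positivity) x.ne', le_sub_iff_add_le, le_div_iff₀ x] at this
    constructor <;> nlinarith [log_le_log x (le_add_of_nonneg_right y)]
  have p : ∀ a b : ℝ, 0 ≤ a → 0 ≤ b → |(a + b) * log (a + b) - a * log a - b * log b| ≤ a + b := fun a b x y => by
    have := q a b x y
    have := q b a y x
    rw [add_comm b] at this
    exact abs_le.2 ⟨by nlinarith, by nlinarith⟩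
  have e : log (-a + -b) = log (a + b) := by rw [← neg_add, log_neg_eq_log]
  rcases le_total 0 a with x | x <;> rcases le_total 0 b with y | y <;> rcases le_total 0 (a + b) with z | z
  all_goals first
    | have := abs_le.1 (p a b x y)
    | have := abs_le.1 (p (-a) (-b) (by linarith) (by linarith))
    | have := abs_le.1 (p (a + b) (-b) z (by linarith))
    | have := abs_le.1 (p (-(a + b)) a (by linarith) x)
    | have := abs_le.1 (p (a + b) (-a) z (by linarith))
    | have := abs_le.1 (p (-(a + b)) b (by linarith) y)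
  all_goals
    try simp only [e, log_neg_eq_log, add_neg_cancel_right, neg_add_cancel_comm, show -(a + b) + b = -a by ring,
      add_neg_cancel_comm, show -(a + b) + a = -b by ring] at this
    exact abs_le.2 ⟨by linarith [le_abs_self a, le_abs_self b, neg_abs_le a, neg_abs_le b],
      by linarith [le_abs_self a, le_abs_self b, neg_abs_le a, neg_abs_le b]⟩

/-- diagonal operators -/
def mu (w : ℕ → ℝ) (h : ∀ n, |w n| ≤ 1) : E →L[ℝ] E :=
  lp.mapCLM 1 (fun n => w n • ContinuousLinearMap.id ℝ ℝ) zero_le_one fun n => by simpa [norm_smul] using h n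

theorem hw (n : ℕ) : |(1 / 2 : ℝ) ^ n| ≤ 1 := by
  rw [abs_pow]
  exact pow_le_one₀ (abs_nonneg _) (by norm_num [abs_of_pos])

theorem sw {w : ℕ → ℝ} (h : Summable fun n => |w n|) (x : E) : Summable fun n => |w n * (x n * log (x n))| :=
  .of_nonneg_of_le (fun _ => abs_nonneg _) (fun n => by
    rw [abs_mul]
    exact mul_le_mul_of_nonneg_left ((l1 _).trans (add_le_add_right (sq_le_sq.2 ((lp.norm_apply_le_norm
      one_ne_zero x n).trans (le_abs_self _))) 1)) (abs_nonneg _)) (h.mul_right (1 + ‖x‖ ^ 2))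

/-- the quasi linear part -/
def om (x : E) : E := ⟨fun n => (1 / 2) ^ n * (x n * log (x n)), ml.2 (sw summable_geometric_two.abs x)⟩

theorem bad : ∃ a : E, ¬Summable fun n => |a n * log (a n)| := by
  have m : ∀ (k : ℕ) ⦃m n : ℕ⦄, 0 < m → m ≤ n → 1 / (n * (Nat.log 2 n + 1) ^ k : ℝ) ≤ 1 / (m * (Nat.log 2 m + 1) ^ k) :=
    fun k m n a b => by
      have := Nat.log_mono_right (b := 2) b
      gcongr
  have c := fun k => summable_condensed_iff_of_nonneg (fun _ => by positivity) (m k)
  simp only [Nat.log_pow one_lt_two, Nat.cast_pow, Nat.cast_two, one_div, mul_inv,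
    mul_inv_cancel_left₀ (pow_ne_zero _ (two_ne_zero' ℝ))] at c
  refine ⟨⟨_, ml.2 ((c 2).1 (by simpa using (summable_nat_add_iff 1).2 (summable_nat_pow_inv.2 one_lt_two))).abs⟩,
    fun h => ?_⟩
  suffices g : Summable fun n : ℕ => (n : ℝ)⁻¹ * (((Nat.log 2 n : ℝ) + 1) ^ 1)⁻¹ from
    mt (summable_nat_add_iff 1).1 not_summable_natCast_inv (by simpa using (c 1).2 g)
  refine (summable_nat_add_iff 2).1 (.of_nonneg_of_le (fun _ => by positivity) (fun n => ?_)
    (((summable_nat_add_iff 2).2 h).mul_left 4))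
  have a : 1 ≤ Nat.log 2 (n + 2) := Nat.log_pos one_lt_two (by omega)
  have b : (2 : ℝ) ^ Nat.log 2 (n + 2) ≤ (n + 2 : ℕ) := mod_cast Nat.pow_log_le_self 2 (by omega)
  have d := log_le_log (by positivity) b
  rw [log_pow] at d
  change _ ≤ 4 * |((n + 2 : ℕ) : ℝ)⁻¹ * (_ ^ 2)⁻¹ * log (((n + 2 : ℕ) : ℝ)⁻¹ * (_ ^ 2)⁻¹)|
  rify at a
  generalize (Nat.log 2 (n + 2) : ℝ) = L at *
  have e : 0 ≤ log ((L + 1) ^ 2) := log_nonneg (by nlinarith)
  have f : (0 : ℝ) < (n + 2 : ℕ) := by positivity
  rw [log_mul (by positivity) (by positivity), log_inv, log_inv, ← neg_add, mul_neg, abs_neg,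
    abs_of_nonneg (by have := log_natCast_nonneg (n + 2); positivity)]
  field_simp
  nlinarith [log_two_gt_d9]

theorem sep : SeparableSpace E := isSeparable_univ_iff.1
  ((countable_range fun n => lp.single (E := fun _ : ℕ => ℝ) 1 n 1).isSeparable.span (R := ℝ).closure.mono
    fun x _ => mem_closure_of_tendsto (lp.hasSum_single (by simp) x) (.of_forall fun s => Submodule.sum_mem _
      fun n _ => by simpa [← lp.single_smul] using Submodule.smul_mem _ (x n) (Submodule.subset_span
        (mem_range_self (f := fun n => lp.single (E := fun _ : ℕ => ℝ) 1 n 1) n))))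

/-- the inclusion -/
def J : E →L[ℝ] E × E := .inl ℝ E E ∘L mu _ hw

theorem mem {p x : E} : (∃ y m, (p, x) = (om y, y) + J m) ↔
    ∃ m : E, ∀ n, p n = (1 / 2) ^ n * (x n * log (x n) + m n) := by
  refine ⟨fun ⟨y, m, h⟩ => ⟨m, fun n => ?_⟩, fun ⟨m, h⟩ => ⟨x, m, Prod.ext (lp.ext (funext fun n => ?_)) (by simp [J])⟩⟩
  · obtain ⟨rfl, rfl⟩ : p = om y + mu _ hw m ∧ x = y := by simpa [J] using h
    simp [om, mu, mul_add]
  simp [om, mu, J, h, mul_add]

theorem meas : @Measurable E (E × E) (borel _) (borel _) fun x => (om x, x) := by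
  letI := borel E
  letI := borel (E × E)
  haveI : BorelSpace E := ⟨rfl⟩
  haveI : BorelSpace (E × E) := ⟨rfl⟩
  refine measurable_of_tendsto_metrizable (f := fun N x => (∑ n ∈ Finset.range N, lp.single 1 n (om x n), x))
    (fun N => Continuous.measurable (.prodMk (continuous_finsetSum _ fun n _ => ?_) continuous_id))
    (tendsto_pi_nhds.2 fun x => (lp.hasSum_single (by simp) _).tendsto_sum_nat.prodMk_nhds tendsto_const_nhds)
  exact (lp.singleContinuousLinearMap ℝ _ 1 n).continuous.comp
    (continuous_const.mul (continuous_mul_log.comp (lp.evalCLM ℝ _ 1 n).continuous))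

theorem lin (x y : E) (a b : ℝ) : (om (a • x + b • y), a • x + b • y) - (a • (om x, x) + b • (om y, y)) ∈ range J := by
  have u := fun x : E => ml.1 (lp.memℓp x)
  refine ⟨⟨fun n => (a * x n + b * y n) * log (a * x n + b * y n) - a * (x n * log (x n)) - b * (y n * log (y n)),
    ml.2 (.of_nonneg_of_le (fun _ => abs_nonneg _) (fun n => ?_) ((((u x).mul_left |a|).add ((u y).mul_left |b|)).add
      (((u x).mul_left |a * log a|).add ((u y).mul_left |b * log b|))))⟩,
    Prod.ext (lp.ext (funext fun n => ?_)) (by simp [J])⟩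
  · have := l3 (a * x n) (b * y n)
    simp only [l2 a, l2 b, ← abs_mul] at this ⊢
    refine le_trans ?_ ((abs_add_le _ _).trans (add_le_add this (abs_add_le _ _)))
    exact (congrArg _ (by ring)).le
  simp [om, mu, J]
  ring

theorem main (Z : Type) [NormedAddCommGroup Z] [NormedSpace ℝ Z] [CompleteSpace Z] (i : Z →L[ℝ] E × E)
    (hi : Injective i) : range i ≠ {v | ∃ x m, v = (om x, x) + J m} := fun h => by
  have k : ∀ x : E, (0, x) ∈ range i ↔ Summable fun n => |x n * log (x n)| := fun x => by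
    rw [h]
    refine mem.trans ⟨fun ⟨m, a⟩ => (ml.1 (lp.memℓp m)).congr fun n => ?_, fun a =>
      ⟨-⟨_, ml.2 a⟩, fun n => by simp⟩⟩
    have := a n
    simp only [lp.coeFn_zero, Pi.zero_apply, zero_eq_mul, pow_eq_zero_iff', one_div, inv_eq_zero,
      OfNat.ofNat_ne_zero, false_and, false_or] at this
    rw [eq_neg_of_add_eq_zero_left this, abs_neg]
  choose z hz using fun n => (k (lp.single 1 n 1)).2 (by
    convert summable_zero (α := ℝ) with m
    rcases eq_or_ne m n with rfl | a <;> simp [*])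
  by_cases c : ∀ k : ℕ, ∃ᶠ n in atTop, k * 2 ^ k < ‖z n‖
  · obtain ⟨φ, p, q⟩ := extraction_forall_of_frequently c
    let w := extend φ (fun k => (1 / 2 : ℝ) ^ k) 0
    have e : ∀ k, w (φ k) = (1 / 2) ^ k := p.injective.extend_apply _ _
    have b : ∀ n, |w n| ≤ 1 := fun n => by
      by_cases c : ∃ k, φ k = n
      · exact c.elim fun k a => a ▸ e k ▸ hw k
      simp [w, extend_apply' _ _ _ c]
    have s : Summable fun n => |w n| := ((p.injective.summable_iff (f := w) fun n a => extend_apply' _ _ _ a).1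
      (summable_geometric_two.congr fun k => (e k).symm)).abs
    choose T hT using fun a => (k (mu w b a)).2 (.of_nonneg_of_le (fun _ => abs_nonneg _) (fun n => by
      change |w n * a n * log (w n * a n)| ≤ _
      rw [l2]
      refine (abs_add_le _ _).trans (add_le_add_right ?_ _)
      rw [abs_mul]
      exact mul_le_mul_of_nonneg_right ((l1 _).trans (add_le_add_right ((sq_le_one_iff_abs_le_one _).2 (b n)) 1))
        (abs_nonneg _)) ((sw s a).add ((ml.1 (lp.memℓp a)).mul_left (1 + 1))))
    let L : E →ₗ[ℝ] Z := ⟨⟨T, fun x y => hi (by simp [hT])⟩, fun a x => hi (by simp [hT])⟩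
    obtain ⟨C, -, hC⟩ := SemilinearMapClass.bound_of_continuous L (L.continuous_of_seq_closed_graph fun u x y a d =>
      hi (tendsto_nhds_unique ((i.continuous.tendsto _).comp d) (by
        simpa [L, comp_def, hT] using tendsto_const_nhds.prodMk_nhds (((mu w b).continuous.tendsto _).comp a))))
    obtain ⟨k, hk⟩ := exists_nat_gt C
    have t : L (lp.single 1 (φ k) 1) = (1 / 2 : ℝ) ^ k • z (φ k) := hi (by
      simp only [L, LinearMap.coe_mk, AddHom.coe_mk, hT, map_smul, hz, Prod.smul_mk, smul_zero, Prod.mk.injEq, true_and]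
      ext n
      rcases eq_or_ne n (φ k) with rfl | a <;> simp [mu, *])
    have := hC (lp.single 1 (φ k) 1)
    rw [t, norm_smul, lp.norm_single one_pos, norm_one, mul_one, norm_pow, one_div, norm_inv, norm_ofNat, inv_pow,
      inv_mul_le_iff₀ (by positivity)] at this
    nlinarith [q k, pow_pos (two_pos (α := ℝ)) k]
  simp only [not_forall, not_frequently, not_lt] at c
  obtain ⟨C, hC⟩ := IsBoundedUnder.bddAbove_range (f := fun n => ‖z n‖) (c.elim fun k a => ⟨_, a⟩)
  obtain ⟨a, ha⟩ := bad
  have s : Summable fun n => a n • z n := .of_norm_bounded ((ml.1 (lp.memℓp a)).mul_right C) fun n => by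
    rw [norm_smul]
    exact mul_le_mul_of_nonneg_left (hC ⟨n, rfl⟩) (abs_nonneg _)
  refine ha ((k a).1 ⟨_, (s.hasSum.mapL i).unique ?_⟩)
  simpa [hz, ← lp.single_smul] using hasSum_zero.prodMk (lp.hasSum_single (by simp) a)

end

end Pool.Agent.H.MP_25e654_an
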